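import Pool.Agent.X69.Ric.Pack

/-!
Arithmetic progressions of length `l ≥ 3` of pairs `(m, m + 2)` without small prime factors. Limit points of the vectors of consecutive normalised gaps.
-/

set_option autoImplicit false

namespace Pool.Agent.Results.MP_a1f59e_nt.GapLimitVectors

open Filter MeasureTheory

/-- The `2 l` numbers `n + j D` and `n + j D + 2`, `0 ≤ j < l`. -/
def f (l D n : ℕ) : Fin (2 * l) → ℕ := fun i =>
  if (i : ℕ) < l then n + (i : ℕ) * D else n + ((i : ℕ) - l) * D + 2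

/-- `Many g A`: for some `c > 0` and all large `X`, the set `A` has at least `c X / (log X) ^ g` elements in `[1, X]`. -/
def Many (g : ℕ) (A : Set ℕ) : Prop :=
  ∃ c : ℝ, 0 < c ∧ ∀ᶠ X : ℕ in atTop, c * X / Real.log X ^ g ≤ ((A ∩ Set.Icc 1 X).ncard : ℝ)

/-- No prime factor of a component of `f n` is less than `n ^ δ`. -/
def Rough {g : ℕ} (f : ℕ → Fin g → ℕ) (δ : ℝ) (n : ℕ) : Prop :=
  ∀ i, ∀ p : ℕ, p.Prime → p ∣ f n i → (n : ℝ) ^ δ ≤ p

/-- The `n ≥ 1` such that all the components of `f n` have at most `r` prime factors, counted with multiplicity,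
none of them less than `n ^ (1 / r)`. -/
def Almost {g : ℕ} (f : ℕ → Fin g → ℕ) (r : ℕ) : Set ℕ :=
  {n | 1 ≤ n ∧ ∀ i, ArithmeticFunction.cardFactors (f n i) ≤ r ∧
    ∀ p : ℕ, p.Prime → p ∣ f n i → (n : ℝ) ^ (1 / (r : ℝ)) ≤ p}

/-- The vector of `m` consecutive normalised gaps `(a (k+i+1) - a (k+i)) / (log a (k+i)) ^ g`, `0 ≤ i < m`, of the
set `A = {a 0 < a 1 < ...}`. -/
noncomputable def gaps (g : ℕ) (A : Set ℕ) (m k : ℕ) : Fin m → ℝ := fun i =>
  ((Nat.nth (· ∈ A) (k + i + 1) : ℝ) - Nat.nth (· ∈ A) (k + i)) / Real.log (Nat.nth (· ∈ A) (k + i)) ^ g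

/-- The set of the limit points in `ℝ ^ m` of the vectors of `m` consecutive normalised gaps of `A`. -/
def LimitVectors (g : ℕ) (A : Set ℕ) (m : ℕ) : Set (Fin m → ℝ) := {t | MapClusterPt t atTop (gaps g A m)}

theorem result : ∀ l D : ℕ, 3 ≤ l → 3 ≤ D →
    (∀ p : ℕ, p.Prime → ∃ n : ℕ, ∀ j : ℕ, j < l → ¬ p ∣ n + j * D ∧ ¬ p ∣ n + j * D + 2) →
    (∀ A : Set ℕ, ∀ δ : ℝ, 0 < δ → (∀ n ∈ A, Rough (f l D) δ n) → Many (2 * l) A →
      ∀ m : ℕ, 1 ≤ m → 0 < volume (LimitVectors (2 * l) A m)) ∧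
    ∃ r : ℕ, 1 ≤ r ∧ Many (2 * l) (Almost (f l D) r) ∧ ∀ m : ℕ, 1 ≤ m → 0 < volume (LimitVectors (2 * l) (Almost (f l D) r) m) := by
  intro l D hl hD hadm
  refine Pool.Agent.X69.Ric.pack_gaps (by omega) (a := fun _ : Fin (2 * l) => (1 : ℤ))
    (b := fun i : Fin (2 * l) => if (i : ℕ) < l then ((i : ℕ) : ℤ) * (D : ℤ) else (((i : ℕ) - l : ℕ) : ℤ) * D + 2)
    (f := f l D) (fun i => one_pos) ?_ ?_ ?_
  · intro i j hij h
    have hi2 := i.2
    have hj2 := j.2
    have hD0 : (D : ℤ) ≠ 0 := by exact_mod_cast (by omega : D ≠ 0)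
    have hD3 : (3 : ℤ) ≤ D := by exact_mod_cast hD
    have key : ∀ u v : ℕ, (u : ℤ) * D = (v : ℤ) * D + 2 → False := by
      intro u v h3
      have h4 : ((u : ℤ) - v) * D = 2 := by linarith
      rcases le_or_gt ((u : ℤ) - v) 0 with h5 | h5
      · nlinarith
      · nlinarith
    simp only [one_mul] at h
    split_ifs at h with h1 h2 h3
    · exact hij (Fin.ext (by exact_mod_cast (mul_right_cancel₀ hD0 h).symm))
    · exact key _ _ h
    · exact key _ _ h.symm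
    · have h4 : (((j : ℕ) - l : ℕ) : ℤ) * D = (((i : ℕ) - l : ℕ) : ℤ) * D := by linarith
      have h5 := mul_right_cancel₀ hD0 h4
      have h6 : (j : ℕ) - l = (i : ℕ) - l := by exact_mod_cast h5
      exact hij (Fin.ext (by omega))
  · intro p hp
    obtain ⟨n, hn⟩ := hadm p hp
    refine ⟨(n : ℤ), ?_⟩
    intro i h
    have hi2 := i.2
    simp only [one_mul] at h
    split_ifs at h with h1
    · exact (hn i h1).1 (by exact_mod_cast h)
    · refine (hn ((i : ℕ) - l) (by omega)).2 ?_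
      have h2 : ((n : ℤ) + ((((i : ℕ) - l : ℕ) : ℤ) * D + 2)) = ((n + ((i : ℕ) - l) * D + 2 : ℕ) : ℤ) := by
        push_cast
        ring
      rw [h2] at h
      exact_mod_cast h
  · intro n hn i
    show ((if (i : ℕ) < l then n + (i : ℕ) * D else n + ((i : ℕ) - l) * D + 2 : ℕ) : ℤ) = _
    split_ifs with h1
    · push_cast
      ring
    · push_cast
      ring

end Pool.Agent.Results.MP_a1f59e_nt.GapLimitVectors
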