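import Pool.Agent.X32.Uni.Pair2

/-!
# Almost all Chen primes are covered by disjoint narrow monochromatic progressions of `l` terms

Let `L` be an arbitrary radius and let `Good` be the set of the primes `p` of an interval `(A, B]`, `B ≤ X`,
`B - A ≥ θ X`, such that `p + 2` is a prime or a product of two primes, all `> X ^ (1 / 9)`, and every other integer of
`[p - L, p + L]` has a prime factor `≤ C`. This set has at least `κ (B - A) / log² X` elements, and for all `l`, every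
`δ > 0` and every colouring with `r` colours, all but at most `δ (B - A) / log² X` of its elements are covered by
pairwise disjoint `l`-term arithmetic progressions of elements of `Good` of one colour, with differences
`≤ (log X) ^ c`.
-/

set_option autoImplicit false

namespace Pool.Agent.Results.MP_a1f59e_nt.MonochromaticPartition

open Finset

/-- `v > 1` is a product of at most `r` primes, all of them larger than `y` -/
def Almost (r : ℕ) (y : ℝ) (v : ℕ) : Prop :=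
  1 < v ∧ v.primeFactorsList.length ≤ r ∧ ∀ q : ℕ, q.Prime → q ∣ v → y < q

open Classical in
/-- the primes `p` of `(A, B]` such that `p + 2` is a product of at most two primes `> X ^ (1 / 9)` and every other
integer of `[p - L, p + L]` has a prime factor `≤ C` -/
noncomputable def Good (L C X A B : ℕ) : Finset ℕ :=
  (Ioc A B).filter (fun p : ℕ => p.Prime ∧ Almost 2 ((X : ℝ) ^ (1 / 9 : ℝ)) (p + 2) ∧
    ∀ m : ℤ, |m - p| ≤ L → m ≠ p → m ≠ p + 2 → ∃ q : ℕ, q.Prime ∧ q ≤ C ∧ (q : ℤ) ∣ m)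

/-- the terms `a, a + b, ..., a + (l - 1) b` of the progression `z = (a, b)` -/
def terms (l : ℕ) (z : ℕ × ℕ) : Finset ℕ := (range l).image (fun i => z.1 + i * z.2)

theorem almost_iff (r : ℕ) (y : ℝ) (v : ℕ) : Pool.Agent.X32.Uni.Almost r y (v : ℤ) ↔ Almost r y v := by
  unfold Pool.Agent.X32.Uni.Almost Almost
  rw [Nat.abs_cast, Int.natAbs_natCast]
  constructor
  · rintro ⟨h1, h2, h3⟩
    exact ⟨by exact_mod_cast h1, h2, fun q hq hd => h3 q hq (Int.natCast_dvd_natCast.2 hd)⟩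
  · rintro ⟨h1, h2, h3⟩
    exact ⟨by exact_mod_cast h1, h2, fun q hq hd => h3 q hq (Int.natCast_dvd_natCast.1 hd)⟩

theorem result (L : ℕ) : ∃ C : ℕ, ∃ κ : ℝ, 0 < κ ∧ ∀ (l r : ℕ) (θ δ : ℝ), 1 ≤ l → 0 < θ → 0 < δ →
    ∃ c X₀ : ℕ, ∀ X : ℕ, X₀ ≤ X → ∀ A B : ℕ, B ≤ X → θ * X ≤ (B : ℝ) - A →
      κ * ((B : ℝ) - A) / Real.log X ^ 2 ≤ ((Good L C X A B).card : ℝ) ∧
      ∀ χ : ℕ → Fin r, ∃ P : Finset (ℕ × ℕ),
        (∀ z ∈ P, 1 ≤ z.2 ∧ (z.2 : ℝ) ≤ Real.log X ^ c ∧
          ∀ i < l, z.1 + i * z.2 ∈ Good L C X A B ∧ χ (z.1 + i * z.2) = χ z.1) ∧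
        (P : Set (ℕ × ℕ)).PairwiseDisjoint (terms l) ∧
        (((Good L C X A B \ P.biUnion (terms l)).card : ℕ) : ℝ) ≤ δ * ((B : ℝ) - A) / Real.log X ^ 2 := by
  classical
  obtain ⟨T, hT⟩ : ∃ T : Finset (ℤ × ℤ), T = ((Icc (-(L : ℤ)) L).filter (fun m => m ≠ 0 ∧ m ≠ 2)).image
      (fun m => ((1 : ℤ), m)) := ⟨_, rfl⟩
  have hTm : ∀ τ : ℤ × ℤ, τ ∈ T ↔ τ.1 = 1 ∧ -(L : ℤ) ≤ τ.2 ∧ τ.2 ≤ L ∧ τ.2 ≠ 0 ∧ τ.2 ≠ 2 := by
    intro τ
    rw [hT, mem_image]
    constructor
    · rintro ⟨m, hm, rfl⟩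
      rw [mem_filter, mem_Icc] at hm
      exact ⟨rfl, hm.1.1, hm.1.2, hm.2.1, hm.2.2⟩
    · rintro ⟨h1, h2, h3, h4, h5⟩
      exact ⟨τ.2, by rw [mem_filter, mem_Icc]; exact ⟨⟨h2, h3⟩, h4, h5⟩, Prod.ext h1.symm rfl⟩
  obtain ⟨C, κ, hκ, H⟩ := Pool.Agent.X32.Uni.pairP 1 0 1 2 one_ne_zero one_ne_zero (by norm_num) (by
    intro p hp
    have h2 := hp.two_le
    by_cases h3 : p = 3
    · subst h3
      exact ⟨2, by norm_num, by norm_num⟩
    · refine ⟨1, ?_, ?_⟩
      · intro h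
        have h4 : p ∣ 1 := by exact_mod_cast h
        rw [Nat.dvd_one] at h4
        omega
      · intro h
        have h4 : p ∣ 3 := by exact_mod_cast h
        exact h3 ((Nat.prime_dvd_prime_iff_eq hp Nat.prime_three).1 h4)) T (by
    intro τ hτ
    rw [((hTm τ).1 hτ).1]
    exact one_ne_zero) (by
    intro τ hτ
    have := ((hTm τ).1 hτ).2.2.2.1
    intro h
    apply this
    linarith) (by
    intro τ hτ
    obtain ⟨h1, _, _, _, h5⟩ := (hTm τ).1 hτ
    intro h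
    apply h5
    rw [h1] at h
    linarith)
  have hgood : ∀ X A B : ℕ, Pool.Agent.X32.Uni.G2 1 0 1 2 T C X A B = Good L C X A B := by
    intro X A B
    ext n
    unfold Pool.Agent.X32.Uni.G2 Good
    rw [mem_filter, mem_filter]
    refine and_congr_right (fun _ => ?_)
    have e1 : (1 : ℤ) * (n : ℤ) + 0 = (n : ℤ) := by ring
    have e2 : (1 : ℤ) * (n : ℤ) + 2 = ((n + 2 : ℕ) : ℤ) := by push_cast; ring
    rw [e1, e2, Int.natAbs_natCast, almost_iff]
    refine and_congr_right (fun _ => and_congr_right (fun _ => ?_))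
    constructor
    · intro h m h1 h2 h3
      rw [abs_le] at h1
      obtain ⟨q, q1, q2, q3⟩ := h (1, m - n) ((hTm _).2 ⟨rfl, by simp only; omega, by simp only; omega,
        by simp only; omega, by simp only; omega⟩)
      refine ⟨q, q1, q2, ?_⟩
      have e3 : (1 : ℤ) * (n : ℤ) + (m - n) = m := by ring
      simp only at q3
      rwa [e3] at q3
    · intro h τ hτ
      obtain ⟨h1, h2, h3, h4, h5⟩ := (hTm τ).1 hτ
      rw [h1, one_mul]
      exact h (n + τ.2) (by rw [add_sub_cancel_left, abs_le]; exact ⟨h2, h3⟩) (by omega) (by omega)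
  refine ⟨C, κ, hκ, fun l r θ δ hl hθ hδ => ?_⟩
  obtain ⟨c, X₀, h⟩ := H l r θ δ hl hθ hδ
  refine ⟨c, X₀, fun X hX A B hB hAB => ?_⟩
  have h1 := h X hX A B hB hAB
  rw [hgood] at h1
  exact h1

end Pool.Agent.Results.MP_a1f59e_nt.MonochromaticPartition
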