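import Mathlib
import Pool.Agent.X34.E.E8
import Pool.Agent.X34.E.E4

/-!
# Narrow arithmetic progressions of primes followed by a gap at most 212

For twin primes the question is whether there are arbitrarily long arithmetic progressions of primes `p`
for which `p + 2` is the next prime. We prove this for one gap `h ≤ 212` instead of `2` (the same `h` for
all lengths), in every reduced residue class (there with `h ≤ 106 lcm (2, q)`), with differences at most
`(log N) ^ C`, and with at least `N / (log N) ^ C` progressions with the same difference up to `N`.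
The whole pattern of the primes at distance at most `R` is the same at all terms of the progressions.
-/

set_option autoImplicit false

open Finset Filter

namespace Pool.Agent.Results.MP_a1f59e_nt.NarrowProgressions212

/-- `n ≡ a (mod q)`, and the primes at distance at most `R` from `n` are exactly the numbers `n + h`,
`h ∈ P` -/
def Cluster (q a R : ℕ) (P : Finset ℕ) (n : ℕ) : Prop :=
  n ≡ a [MOD q] ∧ ∀ m : ℕ, m ≤ n + R → n ≤ m + R → (m.Prime ↔ ∃ h ∈ P, m = n + h)

/-- Let `a` be prime to `q ≥ 1`. There are a finite set `P` of multiples of `lcm (2, q)` in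
`[0, 106 lcm (2, q)]` with at least two elements, the smallest of which are `0` and `k lcm (2, q)`, such
that: for all `l` and `R` there is `C` such that for infinitely many `N` there is `1 ≤ d ≤ (log N) ^ C`
such that for at least `N / (log N) ^ C` integers `1 ≤ n ≤ N` every term `p` of the progression
`n, n + d, ..., n + (l - 1) d` is a prime `≡ a (mod q)`, and the primes at distance at most `R` from `p`
are the numbers `p + h`, `h ∈ P`; in particular (if `R ≥ k lcm (2, q)`) the next prime after `p` is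
`p + k lcm (2, q)`, `1 ≤ k ≤ 106`. -/
theorem result (q a : ℕ) (hq : 1 ≤ q) (ha : a.Coprime q) :
    ∃ (P : Finset ℕ) (k : ℕ), 0 ∈ P ∧ 1 ≤ k ∧ k ≤ 106 ∧ k * Nat.lcm 2 q ∈ P ∧
      (∀ h ∈ P, h = 0 ∨ k * Nat.lcm 2 q ≤ h) ∧
      (∀ h ∈ P, h ≤ 106 * Nat.lcm 2 q ∧ Nat.lcm 2 q ∣ h) ∧
      ∀ l R : ℕ, ∃ C : ℕ, ∃ᶠ N : ℕ in atTop, ∃ d : ℕ, 1 ≤ d ∧ (d : ℝ) ≤ Real.log N ^ C ∧
        (N : ℝ) / Real.log N ^ C ≤
          (Set.ncard {n : ℕ | 1 ≤ n ∧ n ≤ N ∧ ∀ t < l, Cluster q a R P (n + t * d)} : ℝ) := by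
  classical
  obtain ⟨P, k, h1, h2, h3, h4, h5, h6, h7⟩ :=
    Pool.Agent.X34.E.cluster106 Pool.Agent.X34.E.dhl45R q a hq ha
  refine ⟨P, k, h1, h2, h3, h4, h5, h6, fun l R => ?_⟩
  obtain ⟨C, hC⟩ := h7 R l
  refine ⟨C, hC.mono ?_⟩
  rintro N ⟨d, hd1, hd2, hd3⟩
  refine ⟨d, hd1, hd2, hd3.trans ?_⟩
  rw [← Set.ncard_coe_finset, Nat.cast_le]
  apply Set.ncard_le_ncard
  · intro n hn
    simp only [coe_filter, mem_Icc, Set.mem_setOf_eq] at hn
    exact ⟨hn.1.1, hn.1.2, fun t ht => hn.2 t ht⟩
  · exact (Set.finite_Iic N).subset fun n hn => hn.2.1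

end Pool.Agent.Results.MP_a1f59e_nt.NarrowProgressions212
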